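import Mathlib
import Pool.Agent.H97.PK.Targets2

/-!
# Module KNS: `S_m` is concave in `r^d` (Kneser)
-/

open MeasureTheory Set Metric Real
open scoped ENNReal

namespace Pool.Agent.H68.PK

open Pool.Agent.H97.PK

theorem meas_card {d n : ℕ} (P : Fin n → E d → Prop) [∀ i x, Decidable (P i x)]
    (h : ∀ i, MeasurableSet {x | P i x}) : Measurable (fun x => (Finset.univ.filter (fun i => P i x)).card) := by
  simp_rw [Finset.card_filter]
  exact Finset.measurable_sum _ fun i _ => Measurable.ite (h i) measurable_const measurable_const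

theorem sum_min (N m : ℕ) : (∑ k ∈ Finset.range m, if k + 1 ≤ N then (1 : ℝ≥0∞) else 0) = ((min N m : ℕ) : ℝ≥0∞) := by
  rw [Finset.sum_ite, Finset.sum_const_zero, add_zero, Finset.sum_const, nsmul_eq_mul, mul_one]
  congr 1
  have : (Finset.range m).filter (fun k => k + 1 ≤ N) = Finset.range (min N m) := by
    ext k
    simp only [Finset.mem_filter, Finset.mem_range, lt_min_iff]
    omega
  rw [this, Finset.card_range]

/-- the cells -/
def cell {d n : ℕ} (m : ℕ) (p : Fin n → E d) (i : Fin n) : Set (E d) :=
  {y | (Finset.univ.filter (fun j => dist y (p j) < dist y (p i) ∨ (dist y (p j) = dist y (p i) ∧ j < i))).card < m}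

theorem cell_meas {d n : ℕ} (m : ℕ) (p : Fin n → E d) (i : Fin n) : MeasurableSet (cell m p i) := by
  have h := meas_card (fun (j : Fin n) (y : E d) => dist y (p j) < dist y (p i) ∨
    (dist y (p j) = dist y (p i) ∧ j < i)) ?_
  · exact measurableSet_lt h measurable_const
  · intro j
    have c1 : Continuous (fun y : E d => dist y (p j)) := continuous_id.dist continuous_const
    have c2 : Continuous (fun y : E d => dist y (p i)) := continuous_id.dist continuous_const
    refine (measurableSet_lt c1.measurable c2.measurable).union ?_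
    exact (measurableSet_eq_fun c1.measurable c2.measurable).inter (MeasurableSet.const _)

theorem cell_star {d n : ℕ} (m : ℕ) (p : Fin n → E d) (i : Fin n) (y : E d) (hy : y ∈ cell m p i) (t : ℝ)
    (ht : 0 < t) (ht1 : t ≤ 1) : p i + t • (y - p i) ∈ cell m p i := by
  refine lt_of_le_of_lt (Finset.card_le_card ?_) hy
  intro j hj
  rw [Finset.mem_filter] at hj ⊢
  refine ⟨hj.1, ?_⟩
  have h1 : dist (p i + t • (y - p i)) (p i) = t * dist y (p i) := by
    rw [dist_eq_norm, add_sub_cancel_left, norm_smul, Real.norm_of_nonneg ht.le, dist_eq_norm]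
  have h2 : dist y (p i + t • (y - p i)) = (1 - t) * dist y (p i) := by
    rw [dist_eq_norm, dist_eq_norm]
    have : y - (p i + t • (y - p i)) = (1 - t) • (y - p i) := by
      module
    rw [this, norm_smul, Real.norm_of_nonneg (by linarith)]
  have h3 := dist_triangle y (p i + t • (y - p i)) (p j)
  rcases hj.2 with h | ⟨h, hji⟩
  · left
    rw [h1] at h
    rw [h2] at h3
    linarith
  · rw [h1] at h
    rw [h2] at h3
    have h4 : dist y (p j) ≤ dist y (p i) := by linarith
    rcases h4.lt_or_eq with h5 | h5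
    · exact Or.inl h5
    · exact Or.inr ⟨h5, hji⟩

theorem count_meas {d n : ℕ} (p : Fin n → E d) (r : ℝ) :
    Measurable (fun x : E d => (Finset.univ.filter (fun i => dist x (p i) ≤ r)).card) := by
  refine meas_card (fun (i : Fin n) (x : E d) => dist x (p i) ≤ r) fun i => ?_
  have c1 : Continuous (fun y : E d => dist y (p i)) := continuous_id.dist continuous_const
  exact measurableSet_le c1.measurable measurable_const

theorem lev_meas {d n : ℕ} (p : Fin n → E d) (r : ℝ) (k : ℕ) :
    MeasurableSet {x : E d | k + 1 ≤ (Finset.univ.filter (fun i => dist x (p i) ≤ r)).card} :=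
  measurableSet_le measurable_const (count_meas p r)

theorem lev_fin {d n : ℕ} (p : Fin n → E d) (r : ℝ) (k : ℕ) :
    volume {x : E d | k + 1 ≤ (Finset.univ.filter (fun i => dist x (p i) ≤ r)).card} ≠ ∞ := by
  have hsub : {x : E d | k + 1 ≤ (Finset.univ.filter (fun i => dist x (p i) ≤ r)).card} ⊆
      ⋃ i, closedBall (p i) r := by
    intro x hx
    have hx' : k + 1 ≤ (Finset.univ.filter (fun i => dist x (p i) ≤ r)).card := hx
    have : 0 < (Finset.univ.filter (fun i => dist x (p i) ≤ r)).card := by omega
    obtain ⟨i, hi⟩ := Finset.card_pos.1 this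
    rw [Finset.mem_filter] at hi
    exact mem_iUnion.2 ⟨i, hi.2⟩
  have hb : Bornology.IsBounded (⋃ i, closedBall (p i) r) :=
    Bornology.isBounded_iUnion.2 fun i => isBounded_closedBall
  exact (hb.subset hsub).measure_lt_top.ne

theorem SM_eq (hORD : T_ORD) {d n : ℕ} (m : ℕ) (p : Fin n → E d) (r : ℝ) :
    SM m p r = ∑ i, (volume (cell m p i ∩ closedBall (p i) r)).toReal := by
  have hfin : ∀ i, volume (cell m p i ∩ closedBall (p i) r) ≠ ∞ := fun i =>
    (isBounded_closedBall.subset inter_subset_right).measure_lt_top.ne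
  rw [SM, ← ENNReal.toReal_sum fun k _ => lev_fin p r k, ← ENNReal.toReal_sum fun i _ => hfin i]
  congr 1
  have e1 : ∀ k, volume {x : E d | k + 1 ≤ (Finset.univ.filter (fun i => dist x (p i) ≤ r)).card} =
      ∫⁻ x : E d, (if k + 1 ≤ (Finset.univ.filter (fun i => dist x (p i) ≤ r)).card then (1 : ℝ≥0∞) else 0) := by
    intro k
    rw [← lintegral_indicator_one (lev_meas p r k)]
    refine lintegral_congr fun x => ?_
    by_cases h : k + 1 ≤ (Finset.univ.filter (fun i => dist x (p i) ≤ r)).card
    · rw [if_pos h]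
      exact Set.indicator_of_mem (s := {x : E d | k + 1 ≤ (Finset.univ.filter (fun i => dist x (p i) ≤ r)).card}) h _
    · rw [if_neg h]
      exact Set.indicator_of_notMem (s := {x : E d | k + 1 ≤ (Finset.univ.filter (fun i => dist x (p i) ≤ r)).card}) h _
  have e2 : ∀ i, volume (cell m p i ∩ closedBall (p i) r) =
      ∫⁻ x : E d, (cell m p i ∩ closedBall (p i) r).indicator 1 x := by
    intro i
    rw [lintegral_indicator_one ((cell_meas m p i).inter isClosed_closedBall.measurableSet)]
  rw [Finset.sum_congr rfl fun k _ => e1 k, Finset.sum_congr rfl fun i _ => e2 i,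
    ← lintegral_finsetSum _ fun k _ => Measurable.ite (lev_meas p r k) measurable_const measurable_const,
    ← lintegral_finsetSum _ fun i _ => measurable_one.indicator
      ((cell_meas m p i).inter isClosed_closedBall.measurableSet)]
  refine lintegral_congr fun x => ?_
  rw [sum_min, hORD n m (fun i => dist x (p i)) r, Finset.card_filter]
  push_cast
  refine Finset.sum_congr rfl fun i _ => ?_
  by_cases h : dist x (p i) ≤ r ∧
      (Finset.univ.filter (fun j => dist x (p j) < dist x (p i) ∨ (dist x (p j) = dist x (p i) ∧ j < i))).card < m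
  · rw [if_pos h]
    exact (Set.indicator_of_mem (s := cell m p i ∩ closedBall (p i) r) ⟨h.2, h.1⟩ (1 : E d → ℝ≥0∞)).symm
  · rw [if_neg h]
    exact (Set.indicator_of_notMem (s := cell m p i ∩ closedBall (p i) r) (fun h' => h ⟨h'.2, h'.1⟩)
      (1 : E d → ℝ≥0∞)).symm

theorem pf_kns (hPOL : T_POL) (hORD : T_ORD) : T_KNS := by
  intro d hd n m p r₀ r₁ r₂ h0 h1 h2
  simp only [SM_eq hORD]
  rw [← Finset.sum_sub_distrib, ← Finset.sum_sub_distrib, Finset.sum_mul, Finset.sum_mul]
  exact Finset.sum_le_sum fun i _ => hPOL d hd (cell m p i) (p i) (cell_meas m p i)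
    (fun y hy t ht ht1 => cell_star m p i y hy t ht ht1) r₀ r₁ r₂ h0 h1 h2

end Pool.Agent.H68.PK
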