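import Pool.Agent.H63.PK.Targets

/-!
# The derivatives of the generic exponential (row EXD of pwk_modules)
-/

set_option autoImplicit false

open Finset

namespace Pool.Agent.H68.PK

open Pool.Agent.H59.LIN Pool.Agent.H13.LN Pool.Agent.H63.PK

theorem toFinset_rs (J : Finset ℕ) (l : List ℕ) (hJ : J ⊆ l.toFinset) : (rs J l).toFinset = J := by
  ext a
  unfold rs
  rw [List.mem_toFinset, List.mem_filter, decide_eq_true_eq]
  exact ⟨fun h => h.2, fun h => ⟨List.mem_toFinset.1 (hJ h), h⟩⟩

theorem length_rs (J : Finset ℕ) (l : List ℕ) (hJ : J ⊆ l.toFinset)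
    (hl : ∀ a ∈ l, l.count a = 2) : (rs J l).length = 2 * J.card := by
  rw [← List.sum_toFinset_count_eq_length, toFinset_rs J l hJ]
  have h1 : ∀ a ∈ J, (rs J l).count a = 2 := by
    intro a ha
    unfold rs
    rw [List.count_filter (by simpa using ha)]
    exact hl a (List.mem_toFinset.1 (hJ ha))
  rw [Finset.sum_congr rfl h1, Finset.sum_const, smul_eq_mul, mul_comm]

theorem rs_rs (K J : Finset ℕ) (l : List ℕ) (hK : K ⊆ J) : rs K (rs J l) = rs K l := by
  unfold rs
  rw [List.filter_filter]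
  congr 1
  funext a
  by_cases h : a ∈ K
  · simp [h, hK h]
  · simp [h]

theorem exd (hB : T_ESB) (hC : T_ESC) : T_EXD := by
  classical
  intro R _ r x d l e i β he hl
  have hcl : ∀ a ∈ l, l.count a = 2 := hl.2
  set T : Finset ℕ := l.toFinset with hT
  have h1 := hC.2.2.1 R (MvPolynomial (Σ d : ℕ, Fin (r d)) R)
    (MvPolynomial.pderiv (R := R) (⟨e, i⟩ : Σ d : ℕ, Fin (r d))) (fun J => gx x (rs J l)) T
  have h2 : ∀ J ∈ T.powerset.filter (fun J => J.Nonempty),
      MvPolynomial.pderiv (R := R) (⟨e, i⟩ : Σ d : ℕ, Fin (r d)) (gx x (rs J l)) =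
        if J.card = e then MvPolynomial.C (x e i (rs J l)) else 0 := by
    intro J hJ
    have hJT : J ⊆ T := Finset.mem_powerset.1 (Finset.mem_filter.1 hJ).1
    have hlen : (rs J l).length / 2 = J.card := by
      rw [length_rs J l hJT hcl, Nat.mul_div_cancel_left _ (by norm_num)]
    unfold gx
    rw [hlen, map_sum]
    by_cases hJe : J.card = e
    · rw [if_pos hJe]
      subst hJe
      rw [Finset.sum_eq_single i]
      · rw [MvPolynomial.pderiv_C_mul, MvPolynomial.pderiv_X_self, mul_one]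
      · intro j _ hj
        rw [MvPolynomial.pderiv_C_mul, MvPolynomial.pderiv_X_of_ne, mul_zero]
        intro h
        apply hj
        have := Sigma.mk.inj h
        exact eq_of_heq this.2
      · intro h
        exact absurd (Finset.mem_univ i) h
    · rw [if_neg hJe]
      refine Finset.sum_eq_zero fun j _ => ?_
      rw [MvPolynomial.pderiv_C_mul, MvPolynomial.pderiv_X_of_ne, mul_zero]
      intro h
      exact hJe (Sigma.mk.inj h).1
  have h3 : ∀ J ∈ T.powerset.filter (fun J => J.Nonempty),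
      Es (fun J => gx x (rs J l)) (T \ J) = Ex (gx x) (rs (T \ J) l) := by
    intro J _
    unfold Ex
    rw [toFinset_rs (T \ J) l Finset.sdiff_subset]
    refine hB.1 _ _ _ _ fun K hK _ => ?_
    rw [rs_rs K (T \ J) l hK]
  have h4 : MvPolynomial.pderiv (R := R) (⟨e, i⟩ : Σ d : ℕ, Fin (r d)) (Ex (gx x) l) =
      ∑ J ∈ T.powersetCard e, MvPolynomial.C (x e i (rs J l)) * Ex (gx x) (rs (T \ J) l) := by
    have h5 : Ex (gx x) l = Es (fun J => gx x (rs J l)) T := rfl
    rw [h5, h1]
    have h6 : ∑ J ∈ T.powerset.filter (fun J => J.Nonempty),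
        MvPolynomial.pderiv (R := R) (⟨e, i⟩ : Σ d : ℕ, Fin (r d)) (gx x (rs J l)) *
          Es (fun J => gx x (rs J l)) (T \ J) =
        ∑ J ∈ T.powerset.filter (fun J => J.Nonempty),
          if J.card = e then MvPolynomial.C (x e i (rs J l)) * Ex (gx x) (rs (T \ J) l)
            else 0 := by
      refine Finset.sum_congr rfl fun J hJ => ?_
      rw [h2 J hJ, h3 J hJ]
      split_ifs
      · rfl
      · rw [zero_mul]
    rw [h6, ← Finset.sum_filter]
    refine Finset.sum_congr ?_ fun _ _ => rfl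
    ext J
    rw [Finset.mem_filter, Finset.mem_filter, Finset.mem_powerset, Finset.mem_powersetCard]
    constructor
    · rintro ⟨⟨ha, _⟩, hc⟩
      exact ⟨ha, hc⟩
    · rintro ⟨ha, hc⟩
      exact ⟨⟨ha, Finset.card_pos.1 (by omega)⟩, hc⟩
  have h5 := congrArg (MvPolynomial.coeff β) h4
  rw [MvPolynomial.coeff_pderiv, MvPolynomial.coeff_sum] at h5
  rw [mul_comm, h5]
  refine Finset.sum_congr rfl fun J _ => ?_
  rw [MvPolynomial.coeff_C_mul]

end Pool.Agent.H68.PK
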